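import Pool.Agent.Helper36_M1D.Stmts

/-! M1D: modules INDNT and INDX. -/

set_option autoImplicit false
open Set Topology Filter

namespace Pool.Agent.MD.H5

theorem indx (hT : TAU) (h1 : INDNT) (h2 : INDT) : INDX := by
  intro h
  have hc : Continuous (fun x : XX => tt (DD.toM x)) :=
    continuous_tt.comp (hT.cont_toM MM Cant DD)
  obtain ⟨W, hWo, hAW, hWO, hz⟩ := h {x : XX | tt (DD.toM x) = 0} {x : XX | tt (DD.toM x) ≠ 1}
    (isClosed_eq hc continuous_const) (isOpen_ne_fun hc continuous_const) (by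
      intro x hx h'
      simp only [mem_ofPred_eq] at hx
      rw [hx] at h'
      exact absurd h' (by simp))
  have hVo : IsOpen (closure W)ᶜ := isClosed_closure.isOpen_compl
  have hd : Disjoint W (closure W)ᶜ := by
    rw [Set.disjoint_compl_right_iff_subset]
    exact subset_closure
  have hL : (W ∪ (closure W)ᶜ)ᶜ = {x : XX | x ∈ closure W ∧ x ∉ W} := by
    ext x
    simp only [mem_compl_iff, mem_union, not_or, not_not, mem_ofPred_eq]
    tauto
  obtain ⟨g, hg⟩ := exists_code
    (interior (DD.toX ⁻¹' W) ∪ interior (DD.toX ⁻¹' (closure W)ᶜ))ᶜ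
    (isOpen_interior.union isOpen_interior).isClosed_compl
  have hW0 : ∀ p : MM, tt p = 0 → DD.toX p ∈ W := fun p hp => hAW hp
  have hV1 : ∀ p : MM, tt p = 1 → DD.toX p ∈ (closure W)ᶜ := fun p hp hmem => hWO hmem hp
  by_cases hthin : Thin g
  · exact h2 W _ g hWo hVo hd hW0 hV1 (hL ▸ hz) hg.symm hthin
  · exact h1 W _ g hWo hVo hd hW0 hV1 (hL ▸ hz) hg.symm hthin

theorem indnt (_hF : FK) (hT : TAU) : INDNT := by
  intro W V g hWo hVo hd hW0 hV1 hz hg hthin
  have hno : ∀ p : MM, gg p = g → ∀ g', p ∉ DD.K g' := by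
    intro p hp g' hmem
    rw [DD_K] at hmem
    obtain ⟨h1, -, h3⟩ := hmem
    rw [hp] at h3
    subst h3
    exact hthin h1
  have hLmem : ∀ p : MM, gg p = g → p ∈ LL g → DD.toX p ∈ (W ∪ V)ᶜ := by
    intro p hp hpL hmem
    rw [hg] at hpL
    apply hpL
    rcases hmem with h1 | h1
    · exact Or.inl (mem_interior_iff_mem_nhds.2
        ((hT.nhds_notMem MM Cant DD p W (hno p hp)).1 (hWo.mem_nhds h1)))
    · exact Or.inr (mem_interior_iff_mem_nhds.2
        ((hT.nhds_notMem MM Cant DD p V (hno p hp)).1 (hVo.mem_nhds h1)))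
  rw [Thin, not_and_or] at hthin
  rcases hthin with hthin | hthin
  · push Not at hthin
    obtain ⟨p, hp1, hp2, hp3⟩ := hthin
    by_cases h0 : tt p = 0
    · exact hLmem p hp2 hp1 (Or.inl (hW0 p h0))
    · exact hLmem p hp2 hp1 (Or.inr (hV1 p (hp3 h0)))
  · push Not at hthin
    obtain ⟨c, hc⟩ := hthin
    have hc' : (interior {r : unitInterval | eM.symm (r, c, g) ∈ LL g}).Nonempty := by
      rw [Set.nonempty_iff_ne_empty]
      intro h0
      rw [h0] at hc
      simp at hc
    obtain ⟨a, b, hab, hsub⟩ := isOpen_interior.exists_Ioo_subset hc'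
    obtain ⟨a', haa', ha'b⟩ := exists_between hab
    obtain ⟨b', ha'b', hb'b⟩ := exists_between ha'b
    have hIcc : ∀ r ∈ Icc a' b', (eM.symm (r, c, g)) ∈ LL g := by
      intro r hr
      have h1 : r ∈ {r : unitInterval | eM.symm (r, c, g) ∈ LL g} :=
        interior_subset (hsub ⟨haa'.trans_le hr.1, hr.2.trans_lt hb'b⟩)
      exact h1
    set γ : unitInterval → XX := fun r => DD.toX (eM.symm (r, c, g)) with hγ
    have hγM : Continuous fun r : unitInterval => (eM.symm (r, c, g) : MM) :=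
      eM.symm.continuous.comp (by fun_prop)
    have hγc : Continuous γ := by
      rw [continuous_iff_continuousAt]
      intro r
      apply hT.tendsto_toX MM Cant DD unitInterval (𝓝 r)
      · exact hγM.continuousAt
      · have h1 : ∀ r : unitInterval, DD.NN (eM.symm (r, c, g)) = NNc c := by
          intro r
          rw [DD_NN]
          simp [cc]
        simp only [h1]
        exact tendsto_const_nhds
    have hγL : ∀ r ∈ Icc a' b', γ r ∈ (W ∪ V)ᶜ := fun r hr =>
      hLmem _ (by simp [gg]) (hIcc r hr)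
    have hne : γ a' ≠ γ b' := by
      intro h1
      have h2 : (eM.symm (a', c, g) : MM) = eM.symm (b', c, g) := h1
      have h3 := eM.symm.injective h2
      rw [Prod.mk.injEq] at h3
      exact absurd h3.1 ha'b'.ne
    have := hT.t3 MM Cant DD
    obtain ⟨W', hW'o, hAW', hclO, hemp⟩ := hz {γ a'} {γ b'}ᶜ isClosed_singleton
      isOpen_compl_singleton (by
        rintro x ⟨hx, -⟩
        rw [mem_singleton_iff] at hx
        rw [hx]
        exact hne)
    have hpre : IsPreconnected (Icc a' b') := isPreconnected_Icc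
    have ha'mem : a' ∈ Icc a' b' := left_mem_Icc.2 ha'b'.le
    have hb'mem : b' ∈ Icc a' b' := right_mem_Icc.2 ha'b'.le
    obtain ⟨r, hr, hr1, hr2⟩ := hpre (γ ⁻¹' W') (γ ⁻¹' (closure (W' ∩ (W ∪ V)ᶜ))ᶜ)
      (hW'o.preimage hγc) (isClosed_closure.isOpen_compl.preimage hγc) (by
        intro r hr
        by_cases h1 : γ r ∈ W'
        · exact Or.inl h1
        · refine Or.inr fun h2 => ?_
          have h3 : γ r ∈ {x : XX | x ∈ closure (W' ∩ (W ∪ V)ᶜ) ∧ x ∈ (W ∪ V)ᶜ ∧ x ∉ W'} :=
            ⟨h2, hγL r hr, h1⟩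
          rw [hemp] at h3
          exact h3)
      ⟨a', ha'mem, (hAW' ⟨mem_singleton _, hγL a' ha'mem⟩).1⟩
      ⟨b', hb'mem, fun h1 => hclO ⟨h1, hγL b' hb'mem⟩ (mem_singleton _)⟩
    exact hr2 (subset_closure ⟨hr1, hγL r hr⟩)

end Pool.Agent.MD.H5
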